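import Mathlib

/-!
# An odd number larger than `1155` with perfect deficiency at most `10`

`815634435 = 3 · 5 · 7 · 11 · 547 · 1291` has perfect deficiency `6`.
-/

set_option autoImplicit false

namespace Pool.Agent.Results.MP_7acd66_nt.LargerOddTerm

/-- The perfect deficiency of `n`: the divisors `d_1 < d_2 < ... < d_k` of `n` are taken in increasing
order, `r_0 = n`, and `r_i = r_{i-1} - d_i` if `r_{i-1} ≥ d_i`, otherwise `r_i = r_{i-1}`;
the value is `r_k`. -/
def pd (n : ℕ) : ℕ :=
  (n.divisors.sort (· ≤ ·)).foldl (fun r d => if d ≤ r then r - d else r) n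

/-- the divisors of `815634435` -/
def L : List ℕ := [1, 3, 5, 7, 11, 15, 21, 33, 35, 55, 77, 105, 165, 231, 385, 547, 1155, 1291, 1641,
  2735, 3829, 3873, 6017, 6455, 8205, 9037, 11487, 14201, 18051, 19145, 19365, 27111, 30085, 42119,
  42603, 45185, 57435, 71005, 90255, 99407, 126357, 135555, 210595, 213015, 298221, 497035, 631785,
  706177, 1491105, 2118531, 3530885, 4943239, 7767947, 10592655, 14829717, 23303841, 24716195,
  38839735, 54375629, 74148585, 116519205, 163126887, 271878145, 815634435]

open scoped Pointwise in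
theorem div1 : (3 * 5 * 7 * 11 * 547 * 1291 : ℕ).divisors =
    (((((({1, 3} : Finset ℕ) * ({1, 5} : Finset ℕ)) * ({1, 7} : Finset ℕ)) * ({1, 11} : Finset ℕ)) *
      ({1, 547} : Finset ℕ)) * ({1, 1291} : Finset ℕ)) := by
  rw [Nat.divisors_mul, Nat.divisors_mul, Nat.divisors_mul, Nat.divisors_mul, Nat.divisors_mul]
  rw [Nat.Prime.divisors (by norm_num : Nat.Prime 3), Nat.Prime.divisors (by norm_num : Nat.Prime 5),
    Nat.Prime.divisors (by norm_num : Nat.Prime 7), Nat.Prime.divisors (by norm_num : Nat.Prime 11),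
    Nat.Prime.divisors (by norm_num : Nat.Prime 547),
    Nat.Prime.divisors (by norm_num : Nat.Prime 1291)]

theorem divL : (815634435 : ℕ).divisors = L.toFinset := by
  have h : (815634435 : ℕ) = 3 * 5 * 7 * 11 * 547 * 1291 := by norm_num
  rw [h, div1]
  decide +kernel

theorem pd_big : pd 815634435 = 6 := by
  unfold pd
  have h1 : L.Nodup := by decide +kernel
  have h2 : L.Pairwise (· ≤ ·) := by decide +kernel
  rw [divL, (List.toFinset_sort (· ≤ ·) h1).2 h2]
  decide +kernel

/-- The answer to the question is negative: `1155` is not the largest odd positive integer with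
perfect deficiency at most `10`; the odd number `815634435` has perfect deficiency `6`. -/
theorem result :
    ¬ IsGreatest {n : ℕ | 0 < n ∧ Odd n ∧ pd n ≤ 10} 1155 ∧
      Odd (815634435 : ℕ) ∧ (1155 : ℕ) < 815634435 ∧ pd 815634435 = 6 := by
  have h0 : Odd (815634435 : ℕ) := by decide
  refine ⟨fun h => ?_, h0, by norm_num, pd_big⟩
  have h1 : (815634435 : ℕ) ≤ 1155 := h.2 ⟨by norm_num, h0, by rw [pd_big]; norm_num⟩
  norm_num at h1

end Pool.Agent.Results.MP_7acd66_nt.LargerOddTerm
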